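import Pool.Agent.Y920.JB.Stm

/-!
# Project JB: a level from a character whose kernel is not open (helper702)
-/

set_option autoImplicit false

open Topology Filter

namespace Pool.Agent.Y702.JB

open Pool.Agent.Y920.JB

lemma int_zero (n : ℤ) : (((n : ℤ) : ℝ) : UnitAddCircle) = 0 := by
  rw [AddCircle.coe_eq_zero_iff]
  exact ⟨n, by simp⟩

lemma rep (t : UnitAddCircle) : ∃ r : ℝ, (r : UnitAddCircle) = t ∧ |r| = ‖t‖ := by
  obtain ⟨r, rfl⟩ := QuotientAddGroup.mk_surjective t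
  refine ⟨r - round r, ?_, ?_⟩
  · have h : ((r - round r : ℝ) : UnitAddCircle) = (r : UnitAddCircle) - ((round r : ℝ) : UnitAddCircle) :=
      AddCircle.coe_sub 1 r _
    rw [h, int_zero, sub_zero]
  · exact (UnitAddCircle.norm_eq (x := r)).symm

lemma near_int {r e : ℝ} (m : ℤ) (h : |r - m| ≤ e) : ‖(r : UnitAddCircle)‖ ≤ e := by
  rw [UnitAddCircle.norm_eq]
  exact (round_le r m).trans h

lemma near_half {r e : ℝ} (m : ℤ) (h : |r - (m + 1 / 2)| ≤ e) :
    1 / 2 - e ≤ ‖(r : UnitAddCircle)‖ := by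
  rw [UnitAddCircle.norm_eq]
  have h1 : (1 : ℝ) / 2 ≤ |((m : ℝ) + 1 / 2) - round r| := by
    rcases le_or_gt (round r) m with h2 | h2
    · have h3 : ((round r : ℤ) : ℝ) ≤ m := by exact_mod_cast h2
      exact le_trans (by linarith) (le_abs_self _)
    · have h3 : (m : ℝ) + 1 ≤ ((round r : ℤ) : ℝ) := by exact_mod_cast h2
      exact le_trans (by linarith) (neg_le_abs _)
  have h4 : |((m : ℝ) + 1 / 2) - round r| ≤ |r - (m + 1 / 2)| + |r - round r| := by
    have h5 : ((m : ℝ) + 1 / 2) - round r = -(r - (m + 1 / 2)) + (r - round r) := by ring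
    rw [h5]
    refine (abs_add_le _ _).trans ?_
    rw [abs_neg]
  linarith

lemma pick (j : ℤ) (c : ℤ) : ∃ k : Fin (3 + 1), ∃ m : ℤ, j + ((k : ℕ) : ℤ) = 4 * m + c := by
  have h : (j - c) % 4 = 0 ∨ (j - c) % 4 = 1 ∨ (j - c) % 4 = 2 ∨ (j - c) % 4 = 3 := by omega
  rcases h with h | h | h | h
  · exact ⟨0, (j - c) / 4, by simp only [Fin.val_zero]; omega⟩
  · exact ⟨⟨3, by norm_num⟩, (j - c + 3) / 4, by simp only; omega⟩
  · exact ⟨⟨2, by norm_num⟩, (j - c + 2) / 4, by simp only; omega⟩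
  · exact ⟨⟨1, by norm_num⟩, (j - c + 1) / 4, by simp only; omega⟩

theorem t_CHAR : S_CHAR := by
  intro G _ _ _ χ hχ hker U hU
  have h0 : (0 : G) ∈ U := mem_of_mem_nhds hU
  have c2 : Continuous fun u : G => 2 • u := continuous_nsmul 2
  have c3 : Continuous fun u : G => 3 • u := continuous_nsmul 3
  have hU2 : {u : G | 2 • u ∈ U} ∈ 𝓝 (0 : G) := by
    apply c2.continuousAt.preimage_mem_nhds
    rw [smul_zero]
    exact hU
  have hU3 : {u : G | 3 • u ∈ U} ∈ 𝓝 (0 : G) := by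
    apply c3.continuousAt.preimage_mem_nhds
    rw [smul_zero]
    exact hU
  have hU4 : {u : G | ‖χ u‖ < 1 / 64} ∈ 𝓝 (0 : G) := by
    apply (isOpen_lt (continuous_norm.comp hχ) continuous_const).mem_nhds
    simp
  obtain ⟨u, hu1, hu2, hu3, hu4, hu0⟩ : ∃ u : G, u ∈ U ∧ 2 • u ∈ U ∧ 3 • u ∈ U ∧ ‖χ u‖ < 1 / 64 ∧
      χ u ≠ 0 := by
    by_contra hcon
    push Not at hcon
    apply hker
    apply AddSubgroup.isOpen_of_mem_nhds (g := 0)
    filter_upwards [hU, hU2, hU3, hU4] with x h1 h2 h3 h4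
    exact hcon x h1 h2 h3 h4
  obtain ⟨z, hz, hzn⟩ := rep (χ u)
  have hz0 : z ≠ 0 := by
    rintro rfl
    apply hu0
    rw [← hz]
    rfl
  have hz1 : |z| < 1 / 64 := by rw [hzn]; exact hu4
  set N : ℤ := round (1 / (4 * z)) with hN
  have hNz : |(N : ℝ) * z - 1 / 4| ≤ 1 / 128 := by
    have h1 : |1 / (4 * z) - N| ≤ 1 / 2 := abs_sub_round _
    have h2 : (N : ℝ) * z - 1 / 4 = -((1 / (4 * z) - N) * z) := by
      field_simp
      ring
    rw [h2, abs_neg, abs_mul]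
    nlinarith [abs_nonneg z, abs_nonneg (1 / (4 * z) - (N : ℝ))]
  have hcont : Continuous fun x : G => ‖N • χ x‖ := by
    exact continuous_norm.comp ((continuous_zsmul N).comp hχ)
  -- the value of the multiple of the character
  have key : ∀ (x v : G) (k : ℕ) (y w : ℝ), (y : UnitAddCircle) = N • χ x →
      (w : UnitAddCircle) = N • χ v →
      N • χ (x + k • u + v) = ((y + k * (N * z) + w : ℝ) : UnitAddCircle) := by
    intro x v k y w hy hw
    rw [map_add, map_add, map_nsmul, smul_add, smul_add, ← hy, ← hw, ← hz]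
    have e1 : N • k • (z : UnitAddCircle) = ((k * (N * z) : ℝ) : UnitAddCircle) := by
      rw [smul_comm, ← AddCircle.coe_zsmul, ← AddCircle.coe_nsmul]
      congr 1
      rw [nsmul_eq_mul, zsmul_eq_mul]
    rw [e1, ← AddCircle.coe_add, ← AddCircle.coe_add]
  have est : ∀ (j m : ℤ) (k : Fin (3 + 1)) (y w c : ℝ), |4 * y - j| ≤ 1 / 2 →
      (j : ℝ) + ((k : ℕ) : ℝ) = 4 * m + c → |w| < 1 / 32 →
      |y + (k : ℕ) * (N * z) + w - (m + c / 4)| ≤ 23 / 128 := by
    intro j m k y w c h1 h2 h3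
    have hk : ((k : ℕ) : ℝ) ≤ 3 := by
      have := k.2
      have h4 : (k : ℕ) ≤ 3 := by omega
      exact_mod_cast h4
    have hk0 : (0 : ℝ) ≤ ((k : ℕ) : ℝ) := by positivity
    have e : y + (k : ℕ) * (N * z) + w - (m + c / 4) =
        (4 * y - j) / 4 + (k : ℕ) * (N * z - 1 / 4) + w := by
      linear_combination (1 / 4) * h2
    rw [e]
    have h5 : |(4 * y - j) / 4| ≤ 1 / 8 := by
      rw [abs_div, abs_of_pos (by norm_num : (0 : ℝ) < 4)]
      linarith
    have h6 : |((k : ℕ) : ℝ) * (N * z - 1 / 4)| ≤ 3 / 128 := by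
      rw [abs_mul, abs_of_nonneg hk0]
      nlinarith [abs_nonneg ((N : ℝ) * z - 1 / 4)]
    have h7 := abs_add_le ((4 * y - j) / 4 + (k : ℕ) * (N * z - 1 / 4)) w
    have h8 := abs_add_le ((4 * y - j) / 4) ((k : ℕ) * (N * z - 1 / 4))
    linarith
  refine ⟨3, 3, fun i => (i : ℕ) • u, fun i => (i : ℕ) • u, {x | ‖N • χ x‖ < 1 / 4},
    {x | ‖N • χ x‖ < 1 / 32}, isOpen_lt hcont continuous_const, ?_, ?_, ?_, ?_, ?_⟩
  · apply (isOpen_lt hcont continuous_const).mem_nhds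
    simp
  · intro i
    fin_cases i
    · simpa using h0
    · simpa using hu1
    · exact hu2
    · exact hu3
  · intro i
    fin_cases i
    · simpa using h0
    · simpa using hu1
    · exact hu2
    · exact hu3
  · intro x
    obtain ⟨y, hy, -⟩ := rep (N • χ x)
    obtain ⟨k, m, hk⟩ := pick (round (4 * y)) 0
    refine ⟨k, fun v hv => ?_⟩
    obtain ⟨w, hw, hwn⟩ := rep (N • χ v)
    have hv' : |w| < 1 / 32 := by rw [hwn]; exact hv
    show ‖N • χ (x + (k : ℕ) • u + v)‖ < 1 / 4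
    rw [key x v k y w hy hw]
    have hk' : ((round (4 * y) : ℤ) : ℝ) + ((k : ℕ) : ℝ) = 4 * m + 0 := by exact_mod_cast hk
    have h1 := est (round (4 * y)) m k y w 0 (abs_sub_round _) hk' hv'
    have h2 : |y + (k : ℕ) * (N * z) + w - (m : ℝ)| ≤ 23 / 128 := by
      simpa using h1
    have h3 := near_int m h2
    linarith
  · intro x
    obtain ⟨y, hy, -⟩ := rep (N • χ x)
    obtain ⟨k, m, hk⟩ := pick (round (4 * y)) 2
    have hk' : ((round (4 * y) : ℤ) : ℝ) + ((k : ℕ) : ℝ) = 4 * m + 2 := by exact_mod_cast hk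
    have hnot : ¬ ∃ v ∈ {x | ‖N • χ x‖ < 1 / 32}, x + (k : ℕ) • u + v ∈ {x | ‖N • χ x‖ < 1 / 4} := by
      rintro ⟨v, hv, hS⟩
      obtain ⟨w, hw, hwn⟩ := rep (N • χ v)
      have hv' : |w| < 1 / 32 := by rw [hwn]; exact hv
      have hS' : ‖N • χ (x + (k : ℕ) • u + v)‖ < 1 / 4 := hS
      rw [key x v k y w hy hw] at hS'
      have h1 := est (round (4 * y)) m k y w 2 (abs_sub_round _) hk' hv'
      have h2 : |y + (k : ℕ) * (N * z) + w - ((m : ℝ) + 1 / 2)| ≤ 23 / 128 := by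
        have e : ((m : ℝ) + 1 / 2) = m + 2 / 4 := by norm_num
        rw [e]
        exact h1
      have h3 := near_half m h2
      linarith
    have hlt := Finite.card_subtype_lt (α := Fin (3 + 1))
      (p := fun i => ∃ v ∈ {x | ‖N • χ x‖ < 1 / 32}, x + (i : ℕ) • u + v ∈ {x | ‖N • χ x‖ < 1 / 4})
      (x := k) hnot
    rw [Nat.card_eq_fintype_card (α := Fin (3 + 1)), Fintype.card_fin] at hlt
    have hle : Nat.card {i : Fin (3 + 1) // ∃ v ∈ {x | ‖N • χ x‖ < 1 / 32},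
        x + (i : ℕ) • u + v ∈ {x | ‖N • χ x‖ < 1 / 4}} ≤ 3 := by omega
    have hle' : (Nat.card {i : Fin (3 + 1) // ∃ v ∈ {x | ‖N • χ x‖ < 1 / 32},
        x + (i : ℕ) • u + v ∈ {x | ‖N • χ x‖ < 1 / 4}} : ℝ) ≤ 3 := by exact_mod_cast hle
    refine hle'.trans (le_of_eq ?_)
    push_cast
    norm_num

end Pool.Agent.Y702.JB
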